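import Mathlib
import Pool.Agent.Q254.Theta.Stm

/-! Job DD (helper13). -/

namespace Pool.Agent.Q13.Theta

open PowerSeries Pool.Agent.Q254.Theta

section
variable {R : Type*} [CommRing R]

/-- the derivation `f ↦ g f'` as a linear map -/
noncomputable def dE (g : R⟦X⟧) : Module.End R R⟦X⟧ :=
  (LinearMap.mulLeft R g).comp (PowerSeries.derivative R).toLinearMap

theorem dE_apply (g f : R⟦X⟧) : dE g f = dl g f := rfl

theorem dE_pow (g f : R⟦X⟧) (n : ℕ) : (dE g ^ n) f = (dl g)^[n] f := by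
  rw [Module.End.pow_apply]
  rfl

theorem bb_eq (g f : R⟦X⟧) (n : ℕ) : bb g f n = PowerSeries.coeff 0 ((dE g ^ n) f) := by
  rw [dE_pow, PowerSeries.coeff_zero_eq_constantCoeff_apply]
  rfl

theorem step (g : R⟦X⟧) (p : ℕ) (hp : 1 ≤ p) (lam : R)
    (H : ∀ h : R⟦X⟧, ∃ w : R⟦X⟧,
      (dl g)^[p] h - PowerSeries.C lam * dl g h = PowerSeries.C (p : R) * w) :
    ∀ (i n : ℕ) (f : R⟦X⟧), (p : R) ^ min i n ∣
      PowerSeries.coeff 0 ((dE g ^ n * (dE g ^ (p - 1) - lam • (1 : Module.End R R⟦X⟧)) ^ i) f) := by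
  intro i
  induction i with
  | zero => intro n f; simp
  | succ i ih =>
    intro n f
    rcases n with _ | n
    · simp
    · set A : Module.End R R⟦X⟧ := dE g ^ (p - 1) - lam • (1 : Module.End R R⟦X⟧) with hA
      have hc : Commute (dE g) A := by
        rw [hA]
        exact ((Commute.refl (dE g)).pow_right _).sub_right
          ((Commute.one_right (dE g)).smul_right lam)
      obtain ⟨w, hw⟩ := H f
      have e1 : (dE g * A) f = (p : R) • w := by
        have e2 : dE g * A = dE g ^ p - lam • dE g := by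
          rw [hA, mul_sub, ← pow_succ', Nat.sub_add_cancel hp, mul_smul_comm, mul_one]
        rw [e2, LinearMap.sub_apply, LinearMap.smul_apply, dE_pow, dE_apply,
          PowerSeries.smul_eq_C_mul, hw, PowerSeries.smul_eq_C_mul]
      have e3 : dE g ^ (n + 1) * A ^ (i + 1) = (dE g ^ n * A ^ i) * (dE g * A) := by
        rw [pow_succ, pow_succ, mul_assoc, mul_assoc, ← mul_assoc (dE g) (A ^ i) A,
          (hc.pow_right i).eq, mul_assoc]
      rw [e3, Module.End.mul_apply, e1, map_smul, map_smul, smul_eq_mul,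
        Nat.succ_min_succ, pow_succ, mul_comm]
      exact mul_dvd_mul_left _ (ih n w)
end

theorem choose_dvd {p e i : ℕ} (hp : p.Prime) (hi : 1 ≤ i) (hie : i < e) :
    ∃ k, e ≤ k + i ∧ p ^ k ∣ (p ^ (e - 1)).choose i := by
  obtain ⟨v, i', hi', hv⟩ := Nat.exists_eq_pow_mul_and_not_dvd (by omega : i ≠ 0) p hp.ne_one
  have hi'0 : 0 < i' := by
    rcases Nat.eq_zero_or_pos i' with h | h
    · exact absurd (h ▸ dvd_zero p) hi'
    · exact h
  have hvi : v < i := by
    have h1 : v < p ^ v := Nat.lt_pow_self hp.one_lt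
    have h2 : p ^ v ≤ i := by rw [hv]; exact Nat.le_mul_of_pos_right _ hi'0
    omega
  refine ⟨e - 1 - v, by omega, ?_⟩
  have h1 : p ^ (e - 1) ∣ i * (p ^ (e - 1)).choose i := by
    obtain ⟨N, hN⟩ : ∃ N, p ^ (e - 1) = N + 1 :=
      ⟨p ^ (e - 1) - 1, by have := Nat.pow_pos (n := e - 1) hp.pos; omega⟩
    obtain ⟨j, rfl⟩ : ∃ j, i = j + 1 := ⟨i - 1, by omega⟩
    rw [hN, mul_comm, ← Nat.add_one_mul_choose_eq]
    exact Dvd.intro _ rfl
  have h2 : p ^ (e - 1 - v) ∣ i' * (p ^ (e - 1)).choose i := by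
    have e1 : p ^ (e - 1) = p ^ v * p ^ (e - 1 - v) := by
      rw [← pow_add]; congr 1; omega
    have h3 : p ^ v * p ^ (e - 1 - v) ∣ p ^ v * (i' * (p ^ (e - 1)).choose i) := by
      rw [← e1, ← mul_assoc, ← hv]; exact h1
    exact Nat.dvd_of_mul_dvd_mul_left (Nat.pow_pos hp.pos) h3
  exact Nat.Coprime.dvd_of_dvd_mul_left
    (Nat.Coprime.pow_left _ ((Nat.Prime.coprime_iff_not_dvd hp).2 hi')) h2

theorem dd : S_D := by
  intro p hp g lam H f e n he hen
  have hpp : p.Prime := hp.out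
  set N := p ^ (e - 1) with hN
  set A : Module.End ℤ_[p] ℤ_[p]⟦X⟧ :=
    dE g ^ (p - 1) - lam • (1 : Module.End ℤ_[p] ℤ_[p]⟦X⟧) with hA
  have hst := step g p hpp.one_lt.le lam H
  have e1 : dE g ^ (n + N * (p - 1)) = ∑ i ∈ Finset.range (N + 1),
      (lam ^ (N - i) * (N.choose i : ℤ_[p])) • (dE g ^ n * A ^ i) := by
    have e2 : dE g ^ (p - 1) = A + lam • 1 := by rw [hA]; abel
    have hcm : Commute A (lam • (1 : Module.End ℤ_[p] ℤ_[p]⟦X⟧)) :=
      (Commute.one_right A).smul_right lam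
    rw [pow_add, mul_comm N, pow_mul, e2, hcm.add_pow, Finset.mul_sum]
    refine Finset.sum_congr rfl fun i _ => ?_
    rw [smul_pow, one_pow, mul_smul_comm, mul_one, smul_mul_assoc, mul_smul_comm, mul_smul,
      Nat.cast_smul_eq_nsmul, nsmul_eq_mul]
    congr 1
    rw [← mul_assoc]
    exact (Nat.cast_commute _ _).symm.eq
  rw [bb_eq, bb_eq, e1, LinearMap.sum_apply, map_sum, Finset.sum_range_succ']
  simp only [LinearMap.smul_apply, map_smul, smul_eq_mul]
  have e4 : lam ^ (N - 0) * (N.choose 0 : ℤ_[p]) * PowerSeries.coeff 0 ((dE g ^ n * A ^ 0) f) =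
      lam ^ N * PowerSeries.coeff 0 ((dE g ^ n) f) := by
    rw [Nat.sub_zero, Nat.choose_zero_right, pow_zero, mul_one]
    simp
  rw [e4, add_sub_cancel_right]
  refine Finset.dvd_sum fun j _ => ?_
  have h1 := hst (j + 1) n f
  rw [mul_assoc]
  refine Dvd.dvd.mul_left ?_ _
  by_cases hj : j + 1 < e
  · obtain ⟨k, hk, hd⟩ := choose_dvd hpp (by omega : 1 ≤ j + 1) hj
    have h2 : (p : ℤ_[p]) ^ k ∣ (N.choose (j + 1) : ℤ_[p]) := by
      have := (Nat.castRingHom ℤ_[p]).map_dvd hd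
      simpa using this
    have h3 : (p : ℤ_[p]) ^ e ∣ (p : ℤ_[p]) ^ k * (p : ℤ_[p]) ^ min (j + 1) n := by
      rw [← pow_add]; exact pow_dvd_pow _ (by omega)
    exact h3.trans (mul_dvd_mul h2 h1)
  · exact Dvd.dvd.mul_left ((pow_dvd_pow _ (by omega)).trans h1) _

end Pool.Agent.Q13.Theta
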