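import Mathlib
import Pool.Agent.Q254.Theta.Stm

/-! Job MU (helper13). -/

namespace Pool.Agent.Q13.Theta

open PowerSeries Pool.Agent.Q254.Theta

theorem prod_add (R : Type*) [CommRing R] (m n : ℕ) :
    (m.factorial : R) * ∏ j ∈ Finset.range n, ((m : R) + ((j : R) + 1)) = ((m + n).factorial : R) := by
  induction n with
  | zero => simp
  | succ n ih =>
    rw [Finset.prod_range_succ, ← mul_assoc, ih, show m + (n + 1) = (m + n) + 1 by ring,
      Nat.factorial_succ (m + n)]
    push_cast
    ring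

theorem mu : S_mu := by
  intro p hp h4
  obtain ⟨m, hm⟩ : ∃ m, p = 4 * m + 1 := ⟨p / 4, by omega⟩
  have hpp : p.Prime := hp.out
  have hm1 : 1 ≤ m := by
    rcases Nat.eq_zero_or_pos m with h | h
    · exfalso; rw [h] at hm; exact hpp.one_lt.ne' (by omega)
    · exact h
  have e2 : (p - 1) / 2 = 2 * m := by omega
  have e3 : (p - 1) / 4 = m := by omega
  have e4 : p / 2 = 2 * m := by omega
  have hp0 : ((4 * m + 1 : ℕ) : ZMod p) = 0 := by rw [← hm]; exact ZMod.natCast_self p
  have h4m : (4 : ZMod p) * m = -1 := by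
    push_cast at hp0
    linear_combination hp0
  have h20 : (2 : ZMod p) ≠ 0 := by
    intro h
    have : ((2 : ℕ) : ZMod p) = 0 := by exact_mod_cast h
    rw [ZMod.natCast_eq_zero_iff] at this
    have := Nat.le_of_dvd two_pos this
    omega
  have hF : ∀ a : ZMod p, a ≠ 0 → a ^ (4 * m) = 1 := by
    intro a ha
    have := ZMod.pow_card_sub_one_eq_one ha
    rwa [show p - 1 = 4 * m by omega] at this
  -- `Q m! = (3m)!`
  have hQ : QQ (ZMod p) p = 4 ^ (2 * m) * ∏ j ∈ Finset.range (2 * m), ((m : ZMod p) + ((j : ZMod p) + 1)) := by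
    unfold QQ
    rw [e2]
    conv_rhs => rw [← Finset.card_range (2 * m), ← Finset.prod_const, Finset.card_range,
      ← Finset.prod_mul_distrib]
    refine Finset.prod_congr rfl fun j _ => ?_
    linear_combination -h4m
  have h44 : (4 : ZMod p) ^ (2 * m) = 1 := by
    rw [show (4 : ZMod p) = 2 ^ 2 by norm_num, ← pow_mul, show 2 * (2 * m) = 4 * m by ring]
    exact hF 2 h20
  have hQ1 : (m.factorial : ZMod p) * QQ (ZMod p) p = ((3 * m).factorial : ZMod p) := by
    rw [hQ, h44, one_mul, prod_add, show m + 2 * m = 3 * m by ring]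
  -- Wilson
  have hW : ((4 * m).factorial : ZMod p) = -1 := by
    have := ZMod.wilsons_lemma p
    rwa [show p - 1 = 4 * m by omega] at this
  have hP : ∏ j ∈ Finset.range m, (((3 * m : ℕ) : ZMod p) + ((j : ZMod p) + 1)) =
      (-1) ^ m * (m.factorial : ZMod p) := by
    rw [← Finset.prod_range_reflect]
    have e : (m.factorial : ZMod p) = ∏ j ∈ Finset.range m, ((j : ZMod p) + 1) := by
      have := prod_add (ZMod p) 0 m
      simp only [Nat.factorial_zero, Nat.cast_one, one_mul, Nat.cast_zero, zero_add] at this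
      exact this.symm
    rw [e]
    conv_rhs => rw [← Finset.card_range m, ← Finset.prod_const, Finset.card_range,
      ← Finset.prod_mul_distrib]
    refine Finset.prod_congr rfl fun j hj => ?_
    rw [Finset.mem_range] at hj
    rw [show m - 1 - j = m - (j + 1) by omega, Nat.cast_sub (by omega)]
    push_cast
    linear_combination h4m
  have hW2 : ((3 * m).factorial : ZMod p) * ((-1) ^ m * (m.factorial : ZMod p)) = -1 := by
    rw [← hP, prod_add, show 3 * m + m = 4 * m by ring, hW]
  have hQ2 : QQ (ZMod p) p * (m.factorial : ZMod p) ^ 2 * (-1) ^ m = -1 := by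
    rw [← hQ1] at hW2
    linear_combination hW2
  have hm0 : (m.factorial : ZMod p) ≠ 0 := by
    intro h
    rw [h] at hQ2
    exact one_ne_zero (by linear_combination hQ2 : (1 : ZMod p) = 0)
  have h1 : ((-1 : ZMod p)) ^ (2 * m) = 1 := by rw [pow_mul]; simp
  have hQ3 : QQ (ZMod p) p ^ (2 * m) = 1 := by
    have h5 : (QQ (ZMod p) p * (m.factorial : ZMod p) ^ 2 * (-1) ^ m) ^ (2 * m) = 1 := by
      rw [hQ2, h1]
    have h6 : (QQ (ZMod p) p * (m.factorial : ZMod p) ^ 2 * (-1) ^ m) ^ (2 * m) =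
        QQ (ZMod p) p ^ (2 * m) * (m.factorial : ZMod p) ^ (4 * m) * ((-1) ^ (2 * m)) ^ m := by
      ring
    rw [h6, hF _ hm0, h1] at h5
    simpa using h5
  rw [e2, e3]
  have h7 : (-QQ (ZMod p) p ^ 2 * 2 ^ (2 * m)) ^ m =
      (-1) ^ m * QQ (ZMod p) p ^ (2 * m) * (2 ^ (2 * m)) ^ m := by
    rw [mul_pow, neg_pow, ← pow_mul]
  rw [h7, hQ3, mul_one]
  rcases Nat.even_or_odd m with hev | hod
  · rcases ZMod.pow_div_two_eq_neg_one_or_one p h20 with h | h
    · rw [e4] at h; rw [h, hev.neg_one_pow]; simp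
    · rw [e4] at h; rw [h, hev.neg_one_pow]; simp
  · have hns : ¬ IsSquare (2 : ZMod p) := by
      rw [ZMod.exists_sq_eq_two_iff (by omega)]
      obtain ⟨k, hk⟩ := hod
      omega
    rw [ZMod.euler_criterion p h20, e4] at hns
    rcases ZMod.pow_div_two_eq_neg_one_or_one p h20 with h | h
    · rw [e4] at h; exact absurd h hns
    · rw [e4] at h; rw [h, hod.neg_one_pow]; ring

end Pool.Agent.Q13.Theta
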