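import Mathlib
import Pool.Agent.Q254.Theta.Stm

/-! Job SQ (helper13): a power series over `ℚ_p`, `p` odd, whose square is integral, is integral. -/

namespace Pool.Agent.Q13.Theta

open PowerSeries Pool.Agent.Q254.Theta

theorem norm_two (p : ℕ) [Fact p.Prime] (hp : p ≠ 2) : ‖(2 : ℚ_[p])‖ = 1 := by
  have h1 : ‖((2 : ℤ) : ℚ_[p])‖ ≤ 1 := Padic.norm_int_le_one 2
  have h2 : ¬ ‖((2 : ℤ) : ℚ_[p])‖ < 1 := by
    intro h
    have h' : ‖((2 : ℤ) : ℤ_[p])‖ < 1 := by
      rw [PadicInt.norm_def]; push_cast at h ⊢; exact h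
    rw [PadicInt.norm_int_lt_one_iff_dvd] at h'
    have h := h'
    have h3 : p ∣ 2 := by exact_mod_cast h
    have h4 := (Nat.prime_dvd_prime_iff_eq (Fact.out : p.Prime) Nat.prime_two).1 h3
    exact hp h4
  have h3 : ‖((2 : ℤ) : ℚ_[p])‖ = 1 := le_antisymm h1 (not_lt.1 h2)
  simpa using h3

theorem sq : S_sqrt := by
  intro p _ hp f hf0 hf n
  induction n using Nat.strong_induction_on with
  | _ n ih =>
    rcases n with _ | m
    · rw [PowerSeries.coeff_zero_eq_constantCoeff_apply, hf0, norm_one]
    · have e : PowerSeries.coeff (m + 1) (f ^ 2) = 2 * PowerSeries.coeff (m + 1) f +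
          ∑ k ∈ Finset.range m, PowerSeries.coeff (k + 1) f * PowerSeries.coeff (m - k) f := by
        rw [pow_two, PowerSeries.coeff_mul,
          Finset.Nat.sum_antidiagonal_eq_sum_range_succ_mk, Finset.sum_range_succ,
          Finset.sum_range_succ']
        simp only [Nat.sub_self, Nat.sub_zero, Nat.reduceSubDiff, PowerSeries.coeff_zero_eq_constantCoeff_apply, hf0]
        ring
      have h1 : ‖∑ k ∈ Finset.range m, PowerSeries.coeff (k + 1) f *
          PowerSeries.coeff (m - k) f‖ ≤ 1 := by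
        refine IsUltrametricDist.norm_sum_le_of_forall_le_of_nonneg zero_le_one fun k hk => ?_
        rw [Finset.mem_range] at hk
        rw [norm_mul]
        exact mul_le_one₀ (ih _ (by omega)) (norm_nonneg _) (ih _ (by omega))
      have h2 : 2 * PowerSeries.coeff (m + 1) f = PowerSeries.coeff (m + 1) (f ^ 2) -
          ∑ k ∈ Finset.range m, PowerSeries.coeff (k + 1) f * PowerSeries.coeff (m - k) f := by
        rw [e]; ring
      have h3 : ‖2 * PowerSeries.coeff (m + 1) f‖ ≤ 1 := by
        rw [h2, sub_eq_add_neg]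
        refine (IsUltrametricDist.norm_add_le_max _ _).trans (max_le (hf _) ?_)
        rw [norm_neg]; exact h1
      rw [norm_mul, norm_two p hp, one_mul] at h3
      exact h3

end Pool.Agent.Q13.Theta
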